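import Pool.Agent.H42.Bau7

open Cardinal Pool.Agent.H42.Bau Pool.Agent.H42.IMeag

theorem Pool.Agent.Results.MP_ddd032_lc.Q1.result (κ : Cardinal.{0})
    (a : κ ≤ ℵ₁ ∨ κ ≤ bN ∨ κ ≤ covM ∨ nonMX (ℕ → Bool) ≤ κ) :
    BAw κ (ℕ → Bool) ↔ BA κ (ℕ → Bool) := by
  have h : ℵ₁ ≤ bN := by rw [← succ_aleph0]; exact Order.succ_le_of_lt aleph0_lt_b
  refine main' ?_
  rcases a with a | a | a | a
  · exact Or.inl (a.trans h)
  · exact Or.inl a
  · exact Or.inr ((le_total κ _).imp_left (le_min a))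
  · exact Or.inr (Or.inr a)
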