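import Pool.Agent.H42.Bau7

open Cardinal Pool.Agent.H42.Bau Pool.Agent.H42.IMeag

theorem Pool.Agent.Results.MP_ddd032_lc.Q2.result (κ : Cardinal.{0})
    (a : κ ≤ ℵ₁ ∨ κ ≤ bN ∨ κ ≤ min covM (nonMX (ℕ → Bool)) ∨ nonMX (ℕ → ℕ) ≤ κ) :
    BAw κ (ℕ → ℕ) ↔ BA κ (ℕ → ℕ) := by
  have h : ℵ₁ ≤ bN := by rw [← succ_aleph0]; exact Order.succ_le_of_lt aleph0_lt_b
  exact main' (a.elim (fun b => Or.inl (b.trans h)) id)
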